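import Pool.Agent.SCT.StmtsC

/-!
# Squad SCT, row PTS: the points of the line are dominant
-/

set_option autoImplicit false

namespace Pool.Agent.SCT.H45

open MvPolynomial Pool.Agent.SCT

/-- Row PTS. -/
theorem pts (ani : AniStmt) (exp : ExpStmt) (trd : TrdStmt) : PtsStmt := by
  intro k _ _ n a b f x u v μ d hab hf hns hS hl hd
  obtain ⟨ι, hι⟩ : ∃ ι : FT k n →+* Cl k n, ι = algebraMap (FT k n) (Cl k n) := ⟨_, rfl⟩
  have hinj : Function.Injective ι := ι.injective
  obtain ⟨T, hT⟩ : ∃ T : Fin (n + 2) → FT k n, T = gen k n := ⟨_, rfl⟩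
  have hne := hS.ne
  have hz := hS.zero
  have hsum := hS.sum
  have hprod := hS.prod
  have hdu := hS.dimu
  have hdv := hS.dimv
  have hfT : aeval T f ≠ 0 := by rw [hT]; exact aeval_gen_ne hns.ne_zero
  have ha2 : dd f x T ≠ 0 := by rw [hT]; exact ani k n f hf hns x hne hz
  rw [← hι, ← hT] at hsum hprod
  rw [← hT] at hl hd
  obtain ⟨a1, ha1e⟩ : ∃ a1, a1 = dd f T x := ⟨_, rfl⟩
  obtain ⟨a2, ha2e⟩ : ∃ a2, a2 = dd f x T := ⟨_, rfl⟩
  obtain ⟨fT, hfTe⟩ : ∃ fT, fT = aeval T f := ⟨_, rfl⟩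
  rw [← ha1e, ← ha2e] at hsum
  rw [← hfTe, ← ha2e] at hprod
  rw [← hfTe, ← ha1e, ← ha2e] at hl
  rw [← hfTe] at hfT
  rw [← ha2e] at ha2
  -- scaling of zeros
  have hmul : ∀ ρ : FT k n, ρ ≠ 0 → ∀ z : Fin (n + 2) → FT k n, aeval z f ≠ 0 →
      aeval (fun i => ρ * z i) f ≠ 0 := by
    intro ρ hρ z hz'
    have h1 := (exp k (FT k n) (Fin (n + 2)) f hf z z ρ).2.2.2.1
    rw [h1]
    exact mul_ne_zero (pow_ne_zero _ hρ) hz'
  -- `x` is not a multiple of `T`
  have hxT : ∀ ρ : FT k n, ¬ (x = fun i => ρ * T i) := by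
    intro ρ hρ
    rcases eq_or_ne ρ 0 with h0 | h0
    · apply hne
      rw [hρ]
      funext i
      rw [h0, zero_mul]; rfl
    · have h1 := hmul ρ h0 T (by rw [← hfTe]; exact hfT)
      rw [← hρ] at h1
      exact h1 hz
  have hTne : T ≠ 0 := by
    intro h
    apply hfT
    rw [hfTe, h]
    have h1 := (exp k (FT k n) (Fin (n + 2)) f hf 0 0 0).2.2.2.1
    have h2 : (fun i => (0 : FT k n) * (0 : Fin (n + 2) → FT k n) i) = 0 := by
      funext i; simp
    rw [h2] at h1
    rw [h1]; ring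
  obtain ⟨y, hy⟩ : ∃ y : Fin (n + 2) → FT k n, y = fun i => x i - μ * T i := ⟨_, rfl⟩
  have hyne : y ≠ 0 := by
    intro h
    apply hxT μ
    funext i
    have h1 := congrFun h i
    rw [hy] at h1
    simp only [Pi.zero_apply] at h1
    exact sub_eq_zero.1 h1
  obtain ⟨c, hc⟩ := Function.ne_iff.1 hyne
  rw [Pi.zero_apply] at hc
  obtain ⟨ν, hν⟩ : ∃ ν, ν = y c := ⟨_, rfl⟩
  have hν0 : ν ≠ 0 := by rw [hν]; exact hc
  obtain ⟨w, hw⟩ : ∃ w : Fin (n + 2) → FT k n, w = fun i => ν⁻¹ * y i := ⟨_, rfl⟩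
  have hwc : w c = 1 := by rw [hw]; simp only; rw [← hν]; exact inv_mul_cancel₀ hν0
  have hyw : ∀ i, y i = ν * w i := by
    intro i; rw [hw]; simp only; rw [← mul_assoc, mul_inv_cancel₀ hν0, one_mul]
  have hxw : ∀ i, x i = ν * w i + μ * T i := by
    intro i
    rw [← hyw i, hy]; ring
  have hdw : DimLe k w d := by
    unfold DimLe at hd ⊢
    rw [hw, rat_smul (inv_ne_zero hν0), hy]
    exact hd
  -- linear independence
  have hlin : LinearIndependent (FT k n) ![T, w] := by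
    rw [LinearIndependent.pair_iff]
    intro s t hst
    have hst' : ∀ i, s * T i + t * w i = 0 := by
      intro i
      have := congrFun hst i
      simpa using this
    rcases eq_or_ne t 0 with ht | ht
    · refine ⟨?_, ht⟩
      obtain ⟨j, hj⟩ := Function.ne_iff.1 hTne
      have h1 := hst' j
      rw [ht, zero_mul, add_zero] at h1
      exact (mul_eq_zero.1 h1).resolve_right hj
    · exfalso
      apply hxT (μ - ν * t⁻¹ * s)
      funext i
      have h1 := hst' i
      have h2 : w i = -(t⁻¹ * s * T i) := by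
        have h3 : t * w i = -(s * T i) := by linear_combination h1
        calc w i = t⁻¹ * (t * w i) := by rw [← mul_assoc, inv_mul_cancel₀ ht, one_mul]
          _ = -(t⁻¹ * s * T i) := by rw [h3]; ring
      rw [hxw i, h2]; ring
  -- the quadratic polynomial
  obtain ⟨l, hle⟩ : ∃ l, l = μ ^ 2 * fT - μ * a1 + a2 := ⟨_, rfl⟩
  rw [← hle] at hl
  have hιl : ι l = ι a2 * ((1 + u * ι μ) * (1 + v * ι μ)) := by
    rw [hle, map_add, map_sub, map_mul, map_mul, map_pow, hprod, hsum]; ring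
  have hl' : ι l ≠ 0 := fun h => hl (hinj (by rw [h, map_zero]))
  have hι2 : ι a2 ≠ 0 := fun h => ha2 (hinj (by rw [h, map_zero]))
  have hιν : ι ν ≠ 0 := fun h => hν0 (hinj (by rw [h, map_zero]))
  have hιf : ι fT ≠ 0 := fun h => hfT (hinj (by rw [h, map_zero]))
  have h1u : 1 + u * ι μ ≠ 0 := by
    intro h; apply hl'; rw [hιl, h]; ring
  have h1v : 1 + v * ι μ ≠ 0 := by
    intro h; apply hl'; rw [hιl, h]; ring
  obtain ⟨s1, hs1⟩ : ∃ s1, s1 = u * ι ν / (1 + u * ι μ) := ⟨_, rfl⟩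
  obtain ⟨s2, hs2⟩ : ∃ s2, s2 = v * ι ν / (1 + v * ι μ) := ⟨_, rfl⟩
  have hs1' : s1 * (1 + u * ι μ) = u * ι ν := by rw [hs1]; exact div_mul_cancel₀ _ h1u
  have hs2' : s2 * (1 + v * ι μ) = v * ι ν := by rw [hs2]; exact div_mul_cancel₀ _ h1v
  have hpt : ∀ (u' s' : Cl k n), s' * (1 + u' * ι μ) = u' * ι ν →
      pt k n x u' = fun i => (1 + u' * ι μ) * pt k n w s' i := by
    intro u' s' h
    funext i
    unfold pt
    rw [← hι, ← hT, hxw i, map_add, map_mul, map_mul]
    linear_combination (-(ι (w i))) * h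
  have hd1 : DimLe k (pt k n w s1) a := by
    unfold DimLe at hdu ⊢
    rw [hpt u s1 hs1', rat_smul h1u] at hdu
    exact hdu
  have hd2 : DimLe k (pt k n w s2) b := by
    unfold DimLe at hdv ⊢
    rw [hpt v s2 hs2', rat_smul h1v] at hdv
    exact hdv
  have hβ : ν ^ 2 * fT / l ≠ 0 := div_ne_zero (mul_ne_zero (pow_ne_zero _ hν0) hfT) hl
  have hss : s1 + s2 = ι (ν * (2 * fT * μ - a1) / l) := by
    rw [map_div₀, eq_div_iff hl', hιl]
    have e1 : (s1 + s2) * (ι a2 * ((1 + u * ι μ) * (1 + v * ι μ))) =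
        ι a2 * ((s1 * (1 + u * ι μ)) * (1 + v * ι μ) + (s2 * (1 + v * ι μ)) * (1 + u * ι μ)) := by
      ring
    rw [e1, hs1', hs2']
    simp only [map_mul, map_sub, map_ofNat]
    rw [hprod, hsum]; ring
  have hsp : s1 * s2 = ι (ν ^ 2 * fT / l) := by
    rw [map_div₀, eq_div_iff hl', hιl]
    have e1 : (s1 * s2) * (ι a2 * ((1 + u * ι μ) * (1 + v * ι μ))) =
        ι a2 * ((s1 * (1 + u * ι μ)) * (s2 * (1 + v * ι μ))) := by ring
    rw [e1, hs1', hs2', map_mul, map_pow, hprod]; ring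
  have hdis : s1 ≠ s2 ∨ ∀ z : FT k n, s1 ≠ ι z := by
    by_contra hcon
    push Not at hcon
    obtain ⟨h12, z, hzz⟩ := hcon
    have huv : u = v := by
      have h3 : u * ι ν * (1 + v * ι μ) = v * ι ν * (1 + u * ι μ) := by
        rw [← hs1', ← hs2', h12]; ring
      have h4 : ι ν * u = ι ν * v := by linear_combination h3
      exact mul_left_cancel₀ hιν h4
    have hden : ν - z * μ ≠ 0 := by
      intro h
      have h5 : ι ν = s1 * ι μ := by
        rw [hzz, ← map_mul]
        rw [sub_eq_zero.1 h]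
      have h6 : s1 = 0 := by
        have h7 : s1 = u * (ι ν - s1 * ι μ) := by linear_combination hs1'
        rw [h7, h5]; ring
      rw [h6, zero_mul] at h5
      exact hιν h5
    obtain ⟨u0, hu0⟩ : ∃ u0, u0 = z / (ν - z * μ) := ⟨_, rfl⟩
    have hιd : ι (ν - z * μ) ≠ 0 := fun h => hden (hinj (by rw [h, map_zero]))
    have hu : u = ι u0 := by
      rw [hu0, map_div₀, eq_div_iff hιd, map_sub, map_mul, ← hzz]
      linear_combination -hs1'
    -- the point `p`
    have hA1 : a1 = -a2 * (2 * u0) := by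
      apply hinj
      rw [hsum, ← huv, hu]
      simp only [map_mul, map_neg, map_ofNat]; ring
    have hF : fT = a2 * (u0 * u0) := by
      apply hinj
      rw [hprod, ← huv, hu]
      simp only [map_mul]
    obtain ⟨p, hp⟩ : ∃ p : Fin (n + 2) → FT k n, p = fun i => T i + u0 * x i := ⟨_, rfl⟩
    obtain ⟨e1, e2, -, -, -⟩ := exp k (FT k n) (Fin (n + 2)) f hf T x u0
    rw [← hp] at e1 e2
    have hfp : aeval p f = 0 := by
      rw [e1, hz, ← ha1e, ← ha2e, ← hfTe, hA1, hF]; ring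
    have hdpx : dd f p x = 0 := by
      rw [e2, hz, ← ha1e, ← ha2e, hA1]; ring
    have hdpp : dd f p p = 0 := by
      rw [(exp k (FT k n) (Fin (n + 2)) f hf p p 0).2.2.1, hfp, mul_zero]
    have hpne : p ≠ 0 := by
      intro h
      have h8 : T = fun i => (-u0) * x i := by
        funext i
        have h9 := congrFun h i
        rw [hp] at h9
        simp only [Pi.zero_apply] at h9
        linear_combination h9
      apply hfT
      rw [hfTe, h8, (exp k (FT k n) (Fin (n + 2)) f hf x x (-u0)).2.2.2.1, hz, mul_zero]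
    have hpT : dd f p T = 0 := by
      have h10 : dd f p (fun i => T i + u0 * x i) = dd f p T + u0 * dd f p x := by
        rw [dd_add f p T (fun i => u0 * x i), dd_smul]
      rw [← hp, hdpp, hdpx, mul_zero, add_zero] at h10
      exact h10.symm
    have h11 := ani k n f hf hns p hpne hfp
    rw [← hT] at h11
    exact h11 hpT
  rw [hT] at hlin
  rw [hι] at hss hsp hdis
  exact trd k n a b w c s1 s2 _ _ d hab hwc hlin hss hsp hβ hdis hd1 hd2 hdw

end Pool.Agent.SCT.H45
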